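import Pool.Agent.W586.CS.Stm

/-!
# Project CS, CS-ABS: the abstract linear algebra argument
-/

set_option autoImplicit false

namespace Pool.Agent.W540.CS

open Pool.Agent.W586.CS

section

variable {V : Type} [AddCommGroup V] [Module ℝ V] {b : V → V → ℝ}

theorem cauchy (bs : ∀ f h, b f h = b h f) (ba : ∀ f f' h, b (f + f') h = b f h + b f' h)
    (bm : ∀ (c : ℝ) f h, b (c • f) h = c * b f h) (bp : ∀ f, f ≠ 0 → 0 < b f f) (f h : V) :
    (b f h) ^ 2 ≤ b f f * b h h := by
  have bz : ∀ x, b 0 x = 0 := by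
    intro x
    have := bm 0 0 x
    rw [zero_smul, zero_mul] at this
    exact this
  by_cases hh : h = 0
  · rw [hh, bs f 0, bz, bz]
    simp
  · have h1 := bp h hh
    set c := b f h / b h h with hc
    have hnn : 0 ≤ b (f + (-c) • h) (f + (-c) • h) := by
      by_cases h0 : f + (-c) • h = 0
      · rw [h0, bz]
      · exact (bp _ h0).le
    have e : b (f + (-c) • h) (f + (-c) • h) = b f f - 2 * c * b f h + c ^ 2 * b h h := by
      rw [ba, bm, bs f (f + (-c) • h), bs h (f + (-c) • h), ba, bm, ba, bm, bs h f]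
      ring
    rw [e, hc] at hnn
    have e2 : b f f - 2 * (b f h / b h h) * b f h + (b f h / b h h) ^ 2 * b h h =
        (b f f * b h h - (b f h) ^ 2) / b h h := by
      field_simp
      ring
    rw [e2] at hnn
    have := (div_nonneg_iff.1 hnn)
    rcases this with h2 | h2
    · linarith [h2.1]
    · linarith [h2.2]

theorem sq_trick {x y : ℝ} (hx : 0 ≤ x) (h : x ^ 2 ≤ x * y) (hy : 0 ≤ y) : x ≤ y := by
  rcases hx.eq_or_lt with h0 | h0
  · rw [← h0]; exact hy
  · nlinarith

end

theorem main : S_ABS := by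
  intro V _ _ b F E O B K κ v bs ba bm bp hfin hF hBF hKF hBs hκ hKb hlev hdec hEO hBE hBO hKE hvF
    hv0 hBv hBinj hmain
  have ba' : ∀ f g g', b f (g + g') = b f g + b f g' := fun f g g' => by
    rw [bs, ba, bs g, bs g']
  have bm' : ∀ (c : ℝ) f g, b f (c • g) = c * b f g := fun c f g => by
    rw [bs, bm, bs g]
  have bz : ∀ x, b 0 x = 0 := by
    intro x
    have := bm 0 0 x
    rw [zero_smul, zero_mul] at this
    exact this
  have bz' : ∀ x, b x 0 = 0 := fun x => by rw [bs, bz]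
  have bn : ∀ f, 0 ≤ b f f := by
    intro f
    by_cases h : f = 0
    · rw [h, bz]
    · exact (bp f h).le
  have CS := cauchy bs ba bm bp
  let bl : V →ₗ[ℝ] V →ₗ[ℝ] ℝ := LinearMap.mk₂ ℝ b ba bm ba' bm'
  have hmono : Monotone F := monotone_nat_of_le_succ hF
  -- step 1
  have step1 : ∀ m : ℕ, ∃ f ∈ F m ⊓ E, f ≠ 0 ∧ ∀ g ∈ F m, b g (B f + K f) = 0 := by
    intro m
    have hfm := hfin m
    have hfE : FiniteDimensional ℝ (F m ⊓ E : Submodule ℝ V) :=
      Submodule.finiteDimensional_of_le inf_le_left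
    have hfO : FiniteDimensional ℝ (F m ⊓ O : Submodule ℝ V) :=
      Submodule.finiteDimensional_of_le inf_le_left
    have hres : ∀ x ∈ F m ⊓ O, B x ∈ F m ⊓ E := fun x hx => ⟨hBF m x hx.1, hBO x hx.2⟩
    let R : (F m ⊓ O : Submodule ℝ V) →ₗ[ℝ] (F m ⊓ E : Submodule ℝ V) := B.restrict hres
    have hRinj : Function.Injective R := by
      rw [← LinearMap.ker_eq_bot, LinearMap.ker_eq_bot']
      intro x hx
      apply Subtype.ext
      apply hBinj x x.2.2
      have := congrArg Subtype.val hx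
      exact this
    have hlt : Module.finrank ℝ (F m ⊓ O : Submodule ℝ V) <
        Module.finrank ℝ (F m ⊓ E : Submodule ℝ V) := by
      by_contra hcon
      have hle := LinearMap.finrank_le_finrank_of_injective hRinj
      have heq := le_antisymm hle (not_lt.1 hcon)
      have hsurj := (LinearMap.injective_iff_surjective_of_finrank_eq_finrank heq).1 hRinj
      obtain ⟨x, hx⟩ := hsurj ⟨v, hmono (Nat.zero_le m) hvF.1, hvF.2⟩
      have hx' : B x = v := congrArg Subtype.val hx
      have h1 : b v v = 0 := by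
        nth_rewrite 1 [← hx']
        rw [hBs, hBv, bz']
      exact absurd h1 (bp v hv0).ne'
    let T : (F m ⊓ E : Submodule ℝ V) →ₗ[ℝ] Module.Dual ℝ (F m ⊓ O : Submodule ℝ V) :=
      (F m ⊓ O : Submodule ℝ V).subtype.dualMap ∘ₗ (bl.flip ∘ₗ (B + K)) ∘ₗ
        (F m ⊓ E : Submodule ℝ V).subtype
    have hker : LinearMap.ker T ≠ ⊥ := by
      apply LinearMap.ker_ne_bot_of_finrank_lt
      rw [Subspace.dual_finrank_eq]
      exact hlt
    obtain ⟨f, hf, hf0⟩ := Submodule.exists_mem_ne_zero_of_ne_bot hker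
    have hT : ∀ g : (F m ⊓ O : Submodule ℝ V), b g (B f + K f) = 0 := by
      intro g
      have h1 : T f = 0 := hf
      have h2 := congrArg (fun φ => φ g) h1
      exact h2
    refine ⟨f, f.2, fun h => hf0 (Subtype.ext h), fun g hg => ?_⟩
    obtain ⟨g1, hg1, g2, hg2, rfl⟩ := hdec m g hg
    rw [ba, hT ⟨g2, hg2⟩, add_zero]
    exact hEO _ hg1.2 _ (O.add_mem (hBE _ f.2.2) (hKE _ f.2.2))
  -- orthogonal decomposition
  have orth : ∀ (k : ℕ) (f : V), ∃ f' ∈ F k, ∀ h ∈ F k, b h (f - f') = 0 := by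
    intro k f
    have hfk := hfin k
    let P : F k →ₗ[ℝ] Module.Dual ℝ (F k) := (F k).subtype.dualMap ∘ₗ bl.flip ∘ₗ (F k).subtype
    have hPinj : Function.Injective P := by
      rw [← LinearMap.ker_eq_bot, LinearMap.ker_eq_bot']
      intro x hx
      by_contra hx0
      have h1 : P x x = 0 := by rw [hx]; rfl
      have h2 : b x x = 0 := h1
      exact absurd h2 (bp x (fun h => hx0 (Subtype.ext h))).ne'
    have hPsurj := (LinearMap.injective_iff_surjective_of_finrank_eq_finrank
      (Subspace.dual_finrank_eq (K := ℝ) (V := F k)).symm).1 hPinj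
    obtain ⟨f', hf'⟩ := hPsurj ((F k).subtype.dualMap (bl.flip f))
    refine ⟨f', f'.2, fun h hh => ?_⟩
    have h1 := congrArg (fun φ => φ ⟨h, hh⟩) hf'
    have h2 : b h f' = b h f := h1
    rw [sub_eq_add_neg, ba', ← neg_one_smul ℝ (f' : V), bm', h2]
    ring
  obtain ⟨k, hk⟩ := exists_nat_gt (κ ^ 2)
  obtain ⟨f, hfE, hf0, hf⟩ := step1 (k + 1)
  obtain ⟨f', hf', ht⟩ := orth k f
  set t := f - f' with htdef
  have hft : f = f' + t := by rw [htdef]; abel
  have hf'1 : f' ∈ F (k + 1) := hF k hf'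
  have htF : t ∈ F (k + 1) := (F (k + 1)).sub_mem hfE.1 hf'1
  set w := B f + K f with hw
  have hff := bp f hf0
  -- step 2
  have s2 : b w w ≤ κ * b t t := by
    have h1 : w = (B f + K f') + K t := by
      rw [hw]
      nth_rewrite 2 [hft]
      rw [map_add, add_assoc]
    have h2 : b w w = b w (K t) := by
      nth_rewrite 2 [h1]
      rw [ba', bs w (B f + K f'), hf _ ((F (k + 1)).add_mem (hBF _ _ hfE.1) (hKF _ _ hf')), zero_add]
    have h3 := CS w (K t)
    rw [← h2] at h3
    exact (sq_trick (bn w) h3 (bn _)).trans (hKb t)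
  -- step 3
  have s3 : b (B t) (B t) ≤ κ * b f f := by
    have hBt : B t ∈ F (k + 1) := hBF _ _ htF
    have h1 : B t = B f + (-1 : ℝ) • B f' := by
      rw [htdef, map_sub, neg_one_smul, sub_eq_add_neg]
    have h2 : b (B t) (B f') = 0 := by
      rw [hBs, bs]
      exact ht _ (hBF _ _ (hBF _ _ hf')) 
    have h3 : b (B t) w = 0 := hf _ hBt
    have h4 : b (B t) (B t) = -b (B t) (K f) := by
      nth_rewrite 2 [h1]
      rw [ba', bm', h2]
      have h5 : b (B t) w = b (B t) (B f) + b (B t) (K f) := by rw [hw, ba']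
      rw [h3] at h5
      linarith
    have h6 := CS (B t) (K f)
    have h7 : (b (B t) (B t)) ^ 2 ≤ b (B t) (B t) * b (K f) (K f) := by
      nth_rewrite 1 [h4]
      rw [neg_sq]
      exact h6
    exact (sq_trick (bn _) h7 (bn _)).trans (hKb f)
  have s4 := hlev k t htF ht
  have s5 := hmain f
  have s6 : b f f ≤ κ * b t t := s5.trans s2
  have s7 : 2 * ((k : ℝ) + 1) * b f f ≤ κ ^ 2 * b f f := by
    calc 2 * ((k : ℝ) + 1) * b f f ≤ 2 * ((k : ℝ) + 1) * (κ * b t t) :=
          mul_le_mul_of_nonneg_left s6 (by positivity)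
      _ = κ * (2 * ((k : ℝ) + 1) * b t t) := by ring
      _ ≤ κ * (κ * b f f) := mul_le_mul_of_nonneg_left (s4.trans s3) hκ
      _ = κ ^ 2 * b f f := by ring
  have s8 := le_of_mul_le_mul_right s7 hff
  have : (0 : ℝ) ≤ k := Nat.cast_nonneg k
  linarith

end Pool.Agent.W540.CS
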